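import Pool.Agent.Helper533.Thm.Chk

set_option autoImplicit false
set_option maxRecDepth 100000
open Finset

namespace Pool.Agent.Helper533.Thm

theorem nsum_eq (n : ℕ) (f : ℕ → ℕ) : nsum n f = ∑ k ∈ range n, f k := by
  induction n with
  | zero => rfl
  | succ n ih => rw [sum_range_succ, ← ih]; rfl

theorem nall_true {n : ℕ} {f : ℕ → Bool} (h : nall n f = true) : ∀ k < n, f k = true := by
  induction n with
  | zero => intro k hk; omega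
  | succ n ih =>
    have h' : (nall n f && f n) = true := h
    rw [Bool.and_eq_true] at h'
    intro k hk
    rcases Nat.lt_succ_iff_lt_or_eq.mp hk with hk | rfl
    · exact ih h'.1 k hk
    · exact h'.2

/-- compatible pairs of relation codes `(rel x y, rel y x)` -/
def Pr (d e : ℕ) : Prop := (d = 0 ∧ e = 0) ∨ (d = 1 ∧ e = 2) ∨ (d = 2 ∧ e = 1)

theorem A3_true {f : ℕ → ℕ → Bool} (h : A3 f = true) {d e : ℕ} (hd : Pr d e) : f d e = true := by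
  have h' : (f 0 0 && (f 1 2 && f 2 1)) = true := h
  simp only [Bool.and_eq_true] at h'
  rcases hd with ⟨rfl, rfl⟩ | ⟨rfl, rfl⟩ | ⟨rfl, rfl⟩
  exacts [h'.1, h'.2.1, h'.2.2]

theorem leaf_le (d01 e01 d02 e02 d03 e03 d04 e04 d12 e12 d13 e13 d14 e14 d23 e23 d24 e24 d34 e34 : ℕ) (h01 : Pr d01 e01) (h02 : Pr d02 e02) (h03 : Pr d03 e03) (h04 : Pr d04 e04) (h12 : Pr d12 e12) (h13 : Pr d13 e13) (h14 : Pr d14 e14) (h23 : Pr d23 e23) (h24 : Pr d24 e24) (h34 : Pr d34 e34) :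
    leaf d01 e01 d02 e02 d03 e03 d04 e04 d12 e12 d13 e13 d14 e14 d23 e23 d24 e24 d34 e34 ≤ 661356305954793 := by
  have hc : chk d01 e01 d02 e02 = true := by
    rcases h01 with ⟨rfl, rfl⟩ | ⟨rfl, rfl⟩ | ⟨rfl, rfl⟩ <;>
    rcases h02 with ⟨rfl, rfl⟩ | ⟨rfl, rfl⟩ | ⟨rfl, rfl⟩
    exacts [ck0, ck1, ck2, ck3, ck4, ck5, ck6, ck7, ck8]
  exact Nat.le_of_ble_eq_true (A3_true (A3_true (A3_true (A3_true (A3_true (A3_true (A3_true (A3_true hc h03) h04) h12) h13) h14) h23) h24) h34)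

theorem g3_all (c i j : ℕ) (hc : c < 27) (hi : i < 27) (hj : j < 27) : g3 c i j = true := by
  have h : chk3 c = true := by
    interval_cases c
    exacts [cg3_0, cg3_1, cg3_2, cg3_3, cg3_4, cg3_5, cg3_6, cg3_7, cg3_8, cg3_9, cg3_10, cg3_11, cg3_12, cg3_13, cg3_14, cg3_15, cg3_16, cg3_17, cg3_18, cg3_19, cg3_20, cg3_21, cg3_22, cg3_23, cg3_24, cg3_25, cg3_26]
  exact nall_true (nall_true h i hi) j hj

theorem g1_all (i j : ℕ) (hi : i < 27) (hj : j < 27) : g1 i j = true :=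
  nall_true (nall_true cg1 i hi) j hj

theorem expand (s : Finset ℕ) (u v : ℕ → ℕ) (B : ℤ) :
    ∑ k ∈ s, ((u k : ℤ) - B) * ((v k : ℤ) - B) =
      ∑ k ∈ s, (u k : ℤ) * (v k : ℤ) - B * ∑ k ∈ s, ((u k : ℤ) + (v k : ℤ)) + s.card * B ^ 2 := by
  rw [mul_sum, ← sum_sub_distrib]
  have : (s.card : ℤ) * B ^ 2 = ∑ k ∈ s, B ^ 2 := by simp
  rw [this, ← sum_add_distrib]
  exact sum_congr rfl fun k _ => by ring

theorem q3_eq (c i j : ℕ) (hc : c < 27) (hi : i < 27) (hj : j < 27) :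
    (q3 c i j : ℤ) = ∑ k ∈ range 27, ((l3 c i k : ℤ) - 2097152) * ((l3 c j k : ℤ) - 2097152)
      + 8796093022208 + 412316860416 * (pc c : ℤ) := by
  have h := Nat.eq_of_beq_eq_true (g3_all c i j hc hi hj)
  rw [nsum_eq, nsum_eq] at h
  have h2 : ((∑ k ∈ range 27, (l3 c i k * l3 c j k) + (127543348822016 + 412316860416 * pc c) : ℕ) : ℤ)
      = ((q3 c i j + 2097152 * ∑ k ∈ range 27, (l3 c i k + l3 c j k) : ℕ) : ℤ) := congrArg _ h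
  push_cast at h2
  rw [expand (range 27) (fun k => l3 c i k) (fun k => l3 c j k) 2097152, card_range]
  push_cast
  linarith

theorem q1_eq (i j : ℕ) (hi : i < 27) (hj : j < 27) :
    (q1 i j : ℤ) = ∑ k ∈ range 15, ((l1 i k : ℤ) - 2097152) * ((l1 j k : ℤ) - 2097152) + 8796093022208 := by
  have h := Nat.eq_of_beq_eq_true (g1_all i j hi hj)
  rw [nsum_eq, nsum_eq] at h
  have h2 : ((∑ k ∈ range 15, (l1 i k * l1 j k) + 74766790688768 : ℕ) : ℤ)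
      = ((q1 i j + 2097152 * ∑ k ∈ range 15, (l1 i k + l1 j k) : ℕ) : ℤ) := congrArg _ h
  push_cast at h2
  rw [expand (range 15) (fun k => l1 i k) (fun k => l1 j k) 2097152, card_range]
  push_cast
  linarith

theorem sM_eq (r a b c : ℕ) (hr : r < 3) (ha : a < 9) (hb : b < 9) (hc : c < 9) :
    sM r a b c = (if r = 1 ∧ a = 2 ∧ b = 2 ∧ c = 2 then 1221489 else 0)
      + (if r = 1 ∧ a = 3 ∧ b = 3 ∧ c = 3 then 1221489 else 0)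
      + (if r = 1 ∧ a = 5 ∧ b = 5 ∧ c = 5 then 238048 else 0)
      + (if r = 0 ∧ a = 7 ∧ b = 7 ∧ c = 7 then 537759 else 0) := by
  have h : ∀ r < 3, ∀ a < 9, ∀ b < 9, ∀ c < 9,
      sM r a b c = (if r = 1 ∧ a = 2 ∧ b = 2 ∧ c = 2 then 1221489 else 0)
      + (if r = 1 ∧ a = 3 ∧ b = 3 ∧ c = 3 then 1221489 else 0)
      + (if r = 1 ∧ a = 5 ∧ b = 5 ∧ c = 5 then 238048 else 0)
      + (if r = 0 ∧ a = 7 ∧ b = 7 ∧ c = 7 then 537759 else 0) := by decide +kernel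
  exact h r hr a ha b hb c hc

theorem pc_le (c : ℕ) : pc c ≤ 1 := Nat.lt_succ_iff.mp (Nat.mod_lt _ (by norm_num))

theorem sM_le (r a b c : ℕ) (hr : r < 3) (ha : a < 9) (hb : b < 9) (hc : c < 9) :
    sM r a b c ≤ 1221489 := by
  have h : ∀ r < 3, ∀ a < 9, ∀ b < 9, ∀ c < 9, sM r a b c ≤ 1221489 := by decide +kernel
  exact h r hr a ha b hb c hc

theorem hv_eq (s rho : ℕ) (hs : s ≤ 1221489) :
    (hv s rho : ℤ) = 2199023255552 + (s : ℤ) * (400015 - 1000000 * (pc rho : ℤ)) := by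
  have hp := pc_le rho
  have h1 : s * (1000000 * pc rho) ≤ 2199023255552 + s * 400015 := by
    calc s * (1000000 * pc rho) ≤ 1221489 * (1000000 * 1) := Nat.mul_le_mul hs (Nat.mul_le_mul_left _ hp)
      _ ≤ 2199023255552 + s * 400015 := by omega
  have h2 : (hv s rho : ℤ) = ((2199023255552 + s * 400015 - s * (1000000 * pc rho) : ℕ) : ℤ) := rfl
  rw [h2, Nat.cast_sub h1]
  push_cast
  ring

variable {V : Type} (rel : V → V → ℕ)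

def F3 (a b c d e : V) : ℕ :=
  q3 (cd (rel a b) (rel a c) (rel b c)) (cd (rel a d) (rel b d) (rel c d))
    (cd (rel a e) (rel b e) (rel c e))
def F1 (a b c d e : V) : ℕ :=
  q1 (cd (rel a b) (rel a c) (rel b c)) (cd (rel a d) (rel a e) (rel d e))
def FH (a b c d e : V) : ℕ :=
  hv (sM (rel a b) (c2 (rel a c) (rel b c)) (c2 (rel a d) (rel b d)) (c2 (rel a e) (rel b e)))
    (cd (rel c d) (rel c e) (rel d e))

theorem pointwise (h : ∀ x y, Pr (rel x y) (rel y x)) (x : Fin 5 → V) :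
    ((F3 rel (x 0) (x 1) (x 2) (x 3) (x 4) +
      (F3 rel (x 0) (x 1) (x 3) (x 2) (x 4) +
      (F3 rel (x 0) (x 1) (x 4) (x 2) (x 3) +
      (F3 rel (x 0) (x 2) (x 3) (x 1) (x 4) +
      (F3 rel (x 0) (x 2) (x 4) (x 1) (x 3) +
      (F3 rel (x 0) (x 3) (x 4) (x 1) (x 2) +
      (F3 rel (x 1) (x 2) (x 3) (x 0) (x 4) +
      (F3 rel (x 1) (x 2) (x 4) (x 0) (x 3) +
      (F3 rel (x 1) (x 3) (x 4) (x 0) (x 2) +
      F3 rel (x 2) (x 3) (x 4) (x 0) (x 1))))))))))) + 4 * ((F1 rel (x 0) (x 1) (x 2) (x 3) (x 4) +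
      (F1 rel (x 0) (x 1) (x 3) (x 2) (x 4) +
      (F1 rel (x 0) (x 1) (x 4) (x 2) (x 3) +
      (F1 rel (x 1) (x 0) (x 2) (x 3) (x 4) +
      (F1 rel (x 1) (x 0) (x 3) (x 2) (x 4) +
      (F1 rel (x 1) (x 0) (x 4) (x 2) (x 3) +
      (F1 rel (x 2) (x 0) (x 1) (x 3) (x 4) +
      (F1 rel (x 2) (x 0) (x 3) (x 1) (x 4) +
      (F1 rel (x 2) (x 0) (x 4) (x 1) (x 3) +
      (F1 rel (x 3) (x 0) (x 1) (x 2) (x 4) +
      (F1 rel (x 3) (x 0) (x 2) (x 1) (x 4) +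
      (F1 rel (x 3) (x 0) (x 4) (x 1) (x 2) +
      (F1 rel (x 4) (x 0) (x 1) (x 2) (x 3) +
      (F1 rel (x 4) (x 0) (x 2) (x 1) (x 3) +
      F1 rel (x 4) (x 0) (x 3) (x 1) (x 2)))))))))))))))) + ((FH rel (x 0) (x 1) (x 2) (x 3) (x 4) +
      (FH rel (x 0) (x 2) (x 1) (x 3) (x 4) +
      (FH rel (x 0) (x 3) (x 1) (x 2) (x 4) +
      (FH rel (x 0) (x 4) (x 1) (x 2) (x 3) +
      (FH rel (x 1) (x 0) (x 2) (x 3) (x 4) +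
      (FH rel (x 1) (x 2) (x 0) (x 3) (x 4) +
      (FH rel (x 1) (x 3) (x 0) (x 2) (x 4) +
      (FH rel (x 1) (x 4) (x 0) (x 2) (x 3) +
      (FH rel (x 2) (x 0) (x 1) (x 3) (x 4) +
      (FH rel (x 2) (x 1) (x 0) (x 3) (x 4) +
      (FH rel (x 2) (x 3) (x 0) (x 1) (x 4) +
      (FH rel (x 2) (x 4) (x 0) (x 1) (x 3) +
      (FH rel (x 3) (x 0) (x 1) (x 2) (x 4) +
      (FH rel (x 3) (x 1) (x 0) (x 2) (x 4) +
      (FH rel (x 3) (x 2) (x 0) (x 1) (x 4) +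
      (FH rel (x 3) (x 4) (x 0) (x 1) (x 2) +
      (FH rel (x 4) (x 0) (x 1) (x 2) (x 3) +
      (FH rel (x 4) (x 1) (x 0) (x 2) (x 3) +
      (FH rel (x 4) (x 2) (x 0) (x 1) (x 3) +
      FH rel (x 4) (x 3) (x 0) (x 1) (x 2))))))))))))))))))))) ≤ 661356305954793 :=
  leaf_le (rel (x 0) (x 1)) (rel (x 1) (x 0)) (rel (x 0) (x 2)) (rel (x 2) (x 0)) (rel (x 0) (x 3)) (rel (x 3) (x 0)) (rel (x 0) (x 4)) (rel (x 4) (x 0)) (rel (x 1) (x 2)) (rel (x 2) (x 1)) (rel (x 1) (x 3)) (rel (x 3) (x 1)) (rel (x 1) (x 4)) (rel (x 4) (x 1)) (rel (x 2) (x 3)) (rel (x 3) (x 2)) (rel (x 2) (x 4)) (rel (x 4) (x 2)) (rel (x 3) (x 4)) (rel (x 4) (x 3))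
    (h _ _) (h _ _) (h _ _) (h _ _) (h _ _) (h _ _) (h _ _) (h _ _) (h _ _) (h _ _)

theorem psum [Fintype V] (F : V → V → V → V → V → ℕ) (g : Fin 5 → Fin 5)
    (hg : Function.Bijective g) :
    ∑ x : Fin 5 → V, F (x (g 0)) (x (g 1)) (x (g 2)) (x (g 3)) (x (g 4))
      = ∑ x : Fin 5 → V, F (x 0) (x 1) (x 2) (x 3) (x 4) :=
  Equiv.sum_comp (Equiv.arrowCongr (Equiv.ofBijective g hg).symm (Equiv.refl V))
    (fun x => F (x 0) (x 1) (x 2) (x 3) (x 4))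

theorem total [Fintype V] (h : ∀ x y, Pr (rel x y) (rel y x)) :
    10 * ∑ x : Fin 5 → V, F3 rel (x 0) (x 1) (x 2) (x 3) (x 4)
      + 60 * ∑ x : Fin 5 → V, F1 rel (x 0) (x 1) (x 2) (x 3) (x 4)
      + 20 * ∑ x : Fin 5 → V, FH rel (x 0) (x 1) (x 2) (x 3) (x 4)
      ≤ 661356305954793 * Fintype.card V ^ 5 := by
  have f3_0 : ∑ x : Fin 5 → V, F3 rel (x 0) (x 1) (x 2) (x 3) (x 4) = ∑ x : Fin 5 → V, F3 rel (x 0) (x 1) (x 2) (x 3) (x 4) :=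
    psum (F3 rel) ![0, 1, 2, 3, 4] (by decide)
  have f3_1 : ∑ x : Fin 5 → V, F3 rel (x 0) (x 1) (x 3) (x 2) (x 4) = ∑ x : Fin 5 → V, F3 rel (x 0) (x 1) (x 2) (x 3) (x 4) :=
    psum (F3 rel) ![0, 1, 3, 2, 4] (by decide)
  have f3_2 : ∑ x : Fin 5 → V, F3 rel (x 0) (x 1) (x 4) (x 2) (x 3) = ∑ x : Fin 5 → V, F3 rel (x 0) (x 1) (x 2) (x 3) (x 4) :=
    psum (F3 rel) ![0, 1, 4, 2, 3] (by decide)
  have f3_3 : ∑ x : Fin 5 → V, F3 rel (x 0) (x 2) (x 3) (x 1) (x 4) = ∑ x : Fin 5 → V, F3 rel (x 0) (x 1) (x 2) (x 3) (x 4) :=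
    psum (F3 rel) ![0, 2, 3, 1, 4] (by decide)
  have f3_4 : ∑ x : Fin 5 → V, F3 rel (x 0) (x 2) (x 4) (x 1) (x 3) = ∑ x : Fin 5 → V, F3 rel (x 0) (x 1) (x 2) (x 3) (x 4) :=
    psum (F3 rel) ![0, 2, 4, 1, 3] (by decide)
  have f3_5 : ∑ x : Fin 5 → V, F3 rel (x 0) (x 3) (x 4) (x 1) (x 2) = ∑ x : Fin 5 → V, F3 rel (x 0) (x 1) (x 2) (x 3) (x 4) :=
    psum (F3 rel) ![0, 3, 4, 1, 2] (by decide)
  have f3_6 : ∑ x : Fin 5 → V, F3 rel (x 1) (x 2) (x 3) (x 0) (x 4) = ∑ x : Fin 5 → V, F3 rel (x 0) (x 1) (x 2) (x 3) (x 4) :=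
    psum (F3 rel) ![1, 2, 3, 0, 4] (by decide)
  have f3_7 : ∑ x : Fin 5 → V, F3 rel (x 1) (x 2) (x 4) (x 0) (x 3) = ∑ x : Fin 5 → V, F3 rel (x 0) (x 1) (x 2) (x 3) (x 4) :=
    psum (F3 rel) ![1, 2, 4, 0, 3] (by decide)
  have f3_8 : ∑ x : Fin 5 → V, F3 rel (x 1) (x 3) (x 4) (x 0) (x 2) = ∑ x : Fin 5 → V, F3 rel (x 0) (x 1) (x 2) (x 3) (x 4) :=
    psum (F3 rel) ![1, 3, 4, 0, 2] (by decide)
  have f3_9 : ∑ x : Fin 5 → V, F3 rel (x 2) (x 3) (x 4) (x 0) (x 1) = ∑ x : Fin 5 → V, F3 rel (x 0) (x 1) (x 2) (x 3) (x 4) :=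
    psum (F3 rel) ![2, 3, 4, 0, 1] (by decide)
  have f1_0 : ∑ x : Fin 5 → V, F1 rel (x 0) (x 1) (x 2) (x 3) (x 4) = ∑ x : Fin 5 → V, F1 rel (x 0) (x 1) (x 2) (x 3) (x 4) :=
    psum (F1 rel) ![0, 1, 2, 3, 4] (by decide)
  have f1_1 : ∑ x : Fin 5 → V, F1 rel (x 0) (x 1) (x 3) (x 2) (x 4) = ∑ x : Fin 5 → V, F1 rel (x 0) (x 1) (x 2) (x 3) (x 4) :=
    psum (F1 rel) ![0, 1, 3, 2, 4] (by decide)
  have f1_2 : ∑ x : Fin 5 → V, F1 rel (x 0) (x 1) (x 4) (x 2) (x 3) = ∑ x : Fin 5 → V, F1 rel (x 0) (x 1) (x 2) (x 3) (x 4) :=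
    psum (F1 rel) ![0, 1, 4, 2, 3] (by decide)
  have f1_3 : ∑ x : Fin 5 → V, F1 rel (x 1) (x 0) (x 2) (x 3) (x 4) = ∑ x : Fin 5 → V, F1 rel (x 0) (x 1) (x 2) (x 3) (x 4) :=
    psum (F1 rel) ![1, 0, 2, 3, 4] (by decide)
  have f1_4 : ∑ x : Fin 5 → V, F1 rel (x 1) (x 0) (x 3) (x 2) (x 4) = ∑ x : Fin 5 → V, F1 rel (x 0) (x 1) (x 2) (x 3) (x 4) :=
    psum (F1 rel) ![1, 0, 3, 2, 4] (by decide)
  have f1_5 : ∑ x : Fin 5 → V, F1 rel (x 1) (x 0) (x 4) (x 2) (x 3) = ∑ x : Fin 5 → V, F1 rel (x 0) (x 1) (x 2) (x 3) (x 4) :=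
    psum (F1 rel) ![1, 0, 4, 2, 3] (by decide)
  have f1_6 : ∑ x : Fin 5 → V, F1 rel (x 2) (x 0) (x 1) (x 3) (x 4) = ∑ x : Fin 5 → V, F1 rel (x 0) (x 1) (x 2) (x 3) (x 4) :=
    psum (F1 rel) ![2, 0, 1, 3, 4] (by decide)
  have f1_7 : ∑ x : Fin 5 → V, F1 rel (x 2) (x 0) (x 3) (x 1) (x 4) = ∑ x : Fin 5 → V, F1 rel (x 0) (x 1) (x 2) (x 3) (x 4) :=
    psum (F1 rel) ![2, 0, 3, 1, 4] (by decide)
  have f1_8 : ∑ x : Fin 5 → V, F1 rel (x 2) (x 0) (x 4) (x 1) (x 3) = ∑ x : Fin 5 → V, F1 rel (x 0) (x 1) (x 2) (x 3) (x 4) :=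
    psum (F1 rel) ![2, 0, 4, 1, 3] (by decide)
  have f1_9 : ∑ x : Fin 5 → V, F1 rel (x 3) (x 0) (x 1) (x 2) (x 4) = ∑ x : Fin 5 → V, F1 rel (x 0) (x 1) (x 2) (x 3) (x 4) :=
    psum (F1 rel) ![3, 0, 1, 2, 4] (by decide)
  have f1_10 : ∑ x : Fin 5 → V, F1 rel (x 3) (x 0) (x 2) (x 1) (x 4) = ∑ x : Fin 5 → V, F1 rel (x 0) (x 1) (x 2) (x 3) (x 4) :=
    psum (F1 rel) ![3, 0, 2, 1, 4] (by decide)
  have f1_11 : ∑ x : Fin 5 → V, F1 rel (x 3) (x 0) (x 4) (x 1) (x 2) = ∑ x : Fin 5 → V, F1 rel (x 0) (x 1) (x 2) (x 3) (x 4) :=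
    psum (F1 rel) ![3, 0, 4, 1, 2] (by decide)
  have f1_12 : ∑ x : Fin 5 → V, F1 rel (x 4) (x 0) (x 1) (x 2) (x 3) = ∑ x : Fin 5 → V, F1 rel (x 0) (x 1) (x 2) (x 3) (x 4) :=
    psum (F1 rel) ![4, 0, 1, 2, 3] (by decide)
  have f1_13 : ∑ x : Fin 5 → V, F1 rel (x 4) (x 0) (x 2) (x 1) (x 3) = ∑ x : Fin 5 → V, F1 rel (x 0) (x 1) (x 2) (x 3) (x 4) :=
    psum (F1 rel) ![4, 0, 2, 1, 3] (by decide)
  have f1_14 : ∑ x : Fin 5 → V, F1 rel (x 4) (x 0) (x 3) (x 1) (x 2) = ∑ x : Fin 5 → V, F1 rel (x 0) (x 1) (x 2) (x 3) (x 4) :=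
    psum (F1 rel) ![4, 0, 3, 1, 2] (by decide)
  have fh_0 : ∑ x : Fin 5 → V, FH rel (x 0) (x 1) (x 2) (x 3) (x 4) = ∑ x : Fin 5 → V, FH rel (x 0) (x 1) (x 2) (x 3) (x 4) :=
    psum (FH rel) ![0, 1, 2, 3, 4] (by decide)
  have fh_1 : ∑ x : Fin 5 → V, FH rel (x 0) (x 2) (x 1) (x 3) (x 4) = ∑ x : Fin 5 → V, FH rel (x 0) (x 1) (x 2) (x 3) (x 4) :=
    psum (FH rel) ![0, 2, 1, 3, 4] (by decide)
  have fh_2 : ∑ x : Fin 5 → V, FH rel (x 0) (x 3) (x 1) (x 2) (x 4) = ∑ x : Fin 5 → V, FH rel (x 0) (x 1) (x 2) (x 3) (x 4) :=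
    psum (FH rel) ![0, 3, 1, 2, 4] (by decide)
  have fh_3 : ∑ x : Fin 5 → V, FH rel (x 0) (x 4) (x 1) (x 2) (x 3) = ∑ x : Fin 5 → V, FH rel (x 0) (x 1) (x 2) (x 3) (x 4) :=
    psum (FH rel) ![0, 4, 1, 2, 3] (by decide)
  have fh_4 : ∑ x : Fin 5 → V, FH rel (x 1) (x 0) (x 2) (x 3) (x 4) = ∑ x : Fin 5 → V, FH rel (x 0) (x 1) (x 2) (x 3) (x 4) :=
    psum (FH rel) ![1, 0, 2, 3, 4] (by decide)
  have fh_5 : ∑ x : Fin 5 → V, FH rel (x 1) (x 2) (x 0) (x 3) (x 4) = ∑ x : Fin 5 → V, FH rel (x 0) (x 1) (x 2) (x 3) (x 4) :=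
    psum (FH rel) ![1, 2, 0, 3, 4] (by decide)
  have fh_6 : ∑ x : Fin 5 → V, FH rel (x 1) (x 3) (x 0) (x 2) (x 4) = ∑ x : Fin 5 → V, FH rel (x 0) (x 1) (x 2) (x 3) (x 4) :=
    psum (FH rel) ![1, 3, 0, 2, 4] (by decide)
  have fh_7 : ∑ x : Fin 5 → V, FH rel (x 1) (x 4) (x 0) (x 2) (x 3) = ∑ x : Fin 5 → V, FH rel (x 0) (x 1) (x 2) (x 3) (x 4) :=
    psum (FH rel) ![1, 4, 0, 2, 3] (by decide)
  have fh_8 : ∑ x : Fin 5 → V, FH rel (x 2) (x 0) (x 1) (x 3) (x 4) = ∑ x : Fin 5 → V, FH rel (x 0) (x 1) (x 2) (x 3) (x 4) :=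
    psum (FH rel) ![2, 0, 1, 3, 4] (by decide)
  have fh_9 : ∑ x : Fin 5 → V, FH rel (x 2) (x 1) (x 0) (x 3) (x 4) = ∑ x : Fin 5 → V, FH rel (x 0) (x 1) (x 2) (x 3) (x 4) :=
    psum (FH rel) ![2, 1, 0, 3, 4] (by decide)
  have fh_10 : ∑ x : Fin 5 → V, FH rel (x 2) (x 3) (x 0) (x 1) (x 4) = ∑ x : Fin 5 → V, FH rel (x 0) (x 1) (x 2) (x 3) (x 4) :=
    psum (FH rel) ![2, 3, 0, 1, 4] (by decide)
  have fh_11 : ∑ x : Fin 5 → V, FH rel (x 2) (x 4) (x 0) (x 1) (x 3) = ∑ x : Fin 5 → V, FH rel (x 0) (x 1) (x 2) (x 3) (x 4) :=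
    psum (FH rel) ![2, 4, 0, 1, 3] (by decide)
  have fh_12 : ∑ x : Fin 5 → V, FH rel (x 3) (x 0) (x 1) (x 2) (x 4) = ∑ x : Fin 5 → V, FH rel (x 0) (x 1) (x 2) (x 3) (x 4) :=
    psum (FH rel) ![3, 0, 1, 2, 4] (by decide)
  have fh_13 : ∑ x : Fin 5 → V, FH rel (x 3) (x 1) (x 0) (x 2) (x 4) = ∑ x : Fin 5 → V, FH rel (x 0) (x 1) (x 2) (x 3) (x 4) :=
    psum (FH rel) ![3, 1, 0, 2, 4] (by decide)
  have fh_14 : ∑ x : Fin 5 → V, FH rel (x 3) (x 2) (x 0) (x 1) (x 4) = ∑ x : Fin 5 → V, FH rel (x 0) (x 1) (x 2) (x 3) (x 4) :=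
    psum (FH rel) ![3, 2, 0, 1, 4] (by decide)
  have fh_15 : ∑ x : Fin 5 → V, FH rel (x 3) (x 4) (x 0) (x 1) (x 2) = ∑ x : Fin 5 → V, FH rel (x 0) (x 1) (x 2) (x 3) (x 4) :=
    psum (FH rel) ![3, 4, 0, 1, 2] (by decide)
  have fh_16 : ∑ x : Fin 5 → V, FH rel (x 4) (x 0) (x 1) (x 2) (x 3) = ∑ x : Fin 5 → V, FH rel (x 0) (x 1) (x 2) (x 3) (x 4) :=
    psum (FH rel) ![4, 0, 1, 2, 3] (by decide)
  have fh_17 : ∑ x : Fin 5 → V, FH rel (x 4) (x 1) (x 0) (x 2) (x 3) = ∑ x : Fin 5 → V, FH rel (x 0) (x 1) (x 2) (x 3) (x 4) :=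
    psum (FH rel) ![4, 1, 0, 2, 3] (by decide)
  have fh_18 : ∑ x : Fin 5 → V, FH rel (x 4) (x 2) (x 0) (x 1) (x 3) = ∑ x : Fin 5 → V, FH rel (x 0) (x 1) (x 2) (x 3) (x 4) :=
    psum (FH rel) ![4, 2, 0, 1, 3] (by decide)
  have fh_19 : ∑ x : Fin 5 → V, FH rel (x 4) (x 3) (x 0) (x 1) (x 2) = ∑ x : Fin 5 → V, FH rel (x 0) (x 1) (x 2) (x 3) (x 4) :=
    psum (FH rel) ![4, 3, 0, 1, 2] (by decide)
  have key := Finset.sum_le_sum (s := Finset.univ) (fun x _ => pointwise rel h x)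
  simp only [Finset.sum_add_distrib, ← Finset.mul_sum, Finset.sum_const, Finset.card_univ,
    Fintype.card_fun, Fintype.card_fin, smul_eq_mul] at key
  rw [f3_0, f3_1, f3_2, f3_3, f3_4, f3_5, f3_6, f3_7, f3_8, f3_9, f1_0, f1_1, f1_2, f1_3, f1_4, f1_5, f1_6, f1_7, f1_8, f1_9, f1_10, f1_11, f1_12, f1_13, f1_14, fh_0, fh_1, fh_2, fh_3, fh_4, fh_5, fh_6, fh_7, fh_8, fh_9, fh_10, fh_11, fh_12, fh_13, fh_14, fh_15, fh_16, fh_17, fh_18, fh_19] at key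
  linarith

end Pool.Agent.Helper533.Thm
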