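import Pool.Agent.Helper533.Thm.A

set_option autoImplicit false
set_option maxRecDepth 100000
open Finset

namespace Pool.Agent.Helper533.Thm

def e5 (V : Type) : (Fin 5 → V) ≃ V × V × V × V × V where
  toFun x := (x 0, x 1, x 2, x 3, x 4)
  invFun p := ![p.1, p.2.1, p.2.2.1, p.2.2.2.1, p.2.2.2.2]
  left_inv x := by funext i; fin_cases i <;> rfl
  right_inv p := rfl

theorem conv {V : Type} [Fintype V] (F : V → V → V → V → V → ℕ) :
    ∑ x : Fin 5 → V, F (x 0) (x 1) (x 2) (x 3) (x 4)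
      = ∑ a, ∑ b, ∑ c, ∑ d, ∑ e, F a b c d e := by
  rw [← Equiv.sum_comp (e5 V).symm]
  simp only [Fintype.sum_prod_type]
  rfl

theorem psd {V : Type} [Fintype V] (s : Finset ℕ) (u : ℕ → V → ℤ) :
    0 ≤ ∑ d, ∑ e, ∑ k ∈ s, u k d * u k e := by
  have h : ∑ d, ∑ e, ∑ k ∈ s, u k d * u k e = ∑ k ∈ s, (∑ d, u k d) * ∑ e, u k e := by
    simp only [Finset.sum_mul_sum]
    calc ∑ d, ∑ e, ∑ k ∈ s, u k d * u k e = ∑ d, ∑ k ∈ s, ∑ e, u k d * u k e :=
          sum_congr rfl fun d _ => sum_comm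
      _ = _ := sum_comm
  rw [h]
  exact sum_nonneg fun k _ => mul_self_nonneg _

variable {V : Type} (rel : V → V → ℕ)

theorem Pr_lt {d e : ℕ} (h : Pr d e) : d < 3 := by
  rcases h with ⟨rfl, rfl⟩ | ⟨rfl, rfl⟩ | ⟨rfl, rfl⟩ <;> norm_num

theorem cd_lt {x y z : ℕ} (hx : x < 3) (hy : y < 3) (hz : z < 3) : cd x y z < 27 := by
  show x + (3 * y + 9 * z) < 27
  omega

theorem c2_lt {x y : ℕ} (hx : x < 3) (hy : y < 3) : c2 x y < 9 := by
  show x + 3 * y < 9
  omega

/-- number of ordered triples spanning an induced directed path -/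
def PP [Fintype V] : ℕ := ∑ a, ∑ b, ∑ c, pc (cd (rel a b) (rel a c) (rel b c))

theorem lower3 [Fintype V] (h : ∀ x y, Pr (rel x y) (rel y x)) :
    (8796093022208 : ℤ) * Fintype.card V ^ 5 + 412316860416 * Fintype.card V ^ 2 * (PP rel : ℤ)
      ≤ ((∑ x : Fin 5 → V, F3 rel (x 0) (x 1) (x 2) (x 3) (x 4) : ℕ) : ℤ) := by
  have hl : ∀ x y, rel x y < 3 := fun x y => Pr_lt (h x y)
  rw [conv, PP]
  push_cast
  have e1 : (8796093022208 : ℤ) * Fintype.card V ^ 5 + 412316860416 * Fintype.card V ^ 2 *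
      (∑ a, ∑ b, ∑ c, (pc (cd (rel a b) (rel a c) (rel b c)) : ℤ))
      = ∑ a : V, ∑ b : V, ∑ c : V, ∑ d : V, ∑ e : V,
        ((8796093022208 : ℤ) + 412316860416 * (pc (cd (rel a b) (rel a c) (rel b c)) : ℤ)) := by
    simp only [Finset.sum_add_distrib, ← Finset.mul_sum, Finset.sum_const, Finset.card_univ,
      nsmul_eq_mul]
    ring
  rw [e1]
  refine sum_le_sum fun a _ => sum_le_sum fun b _ => sum_le_sum fun c _ => ?_
  have e2 : ∀ d e : V, (F3 rel a b c d e : ℤ) =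
      ∑ k ∈ range 27, ((l3 (cd (rel a b) (rel a c) (rel b c)) (cd (rel a d) (rel b d) (rel c d)) k : ℤ) - 2097152) *
        ((l3 (cd (rel a b) (rel a c) (rel b c)) (cd (rel a e) (rel b e) (rel c e)) k : ℤ) - 2097152)
      + ((8796093022208 : ℤ) + 412316860416 * (pc (cd (rel a b) (rel a c) (rel b c)) : ℤ)) := by
    intro d e
    rw [F3, q3_eq _ _ _ (cd_lt (hl _ _) (hl _ _) (hl _ _)) (cd_lt (hl _ _) (hl _ _) (hl _ _))
      (cd_lt (hl _ _) (hl _ _) (hl _ _))]
    ring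
  simp only [e2, Finset.sum_add_distrib (s := (Finset.univ : Finset V))]
  have := psd (V := V) (range 27) (fun k d => (l3 (cd (rel a b) (rel a c) (rel b c)) (cd (rel a d) (rel b d) (rel c d)) k : ℤ) - 2097152)
  linarith

theorem lower1 [Fintype V] (h : ∀ x y, Pr (rel x y) (rel y x)) :
    (8796093022208 : ℤ) * Fintype.card V ^ 5
      ≤ ((∑ x : Fin 5 → V, F1 rel (x 0) (x 1) (x 2) (x 3) (x 4) : ℕ) : ℤ) := by
  have hl : ∀ x y, rel x y < 3 := fun x y => Pr_lt (h x y)
  rw [conv]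
  push_cast
  have e2 : ∀ a b c d e : V, (F1 rel a b c d e : ℤ) =
      ∑ k ∈ range 15, ((l1 (cd (rel a b) (rel a c) (rel b c)) k : ℤ) - 2097152) *
        ((l1 (cd (rel a d) (rel a e) (rel d e)) k : ℤ) - 2097152) + 8796093022208 := by
    intro a b c d e
    rw [F1, q1_eq _ _ (cd_lt (hl _ _) (hl _ _) (hl _ _)) (cd_lt (hl _ _) (hl _ _) (hl _ _))]
  have e3 : ∀ a : V, (8796093022208 : ℤ) * Fintype.card V ^ 4 ≤
      ∑ b : V, ∑ c : V, ∑ d : V, ∑ e : V, (F1 rel a b c d e : ℤ) := by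
    intro a
    have p := psd (V := V × V) (range 15)
      (fun k q => (l1 (cd (rel a q.1) (rel a q.2) (rel q.1 q.2)) k : ℤ) - 2097152)
    simp only [Fintype.sum_prod_type] at p
    simp only [e2]
    have e4 : ∑ b : V, ∑ c : V, ∑ d : V, ∑ e : V,
        (∑ k ∈ range 15, ((l1 (cd (rel a b) (rel a c) (rel b c)) k : ℤ) - 2097152) *
        ((l1 (cd (rel a d) (rel a e) (rel d e)) k : ℤ) - 2097152) + 8796093022208)
        = ∑ b : V, ∑ c : V, ∑ d : V, ∑ e : V,
        (∑ k ∈ range 15, ((l1 (cd (rel a b) (rel a c) (rel b c)) k : ℤ) - 2097152) *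
        ((l1 (cd (rel a d) (rel a e) (rel d e)) k : ℤ) - 2097152)) + 8796093022208 * Fintype.card V ^ 4 := by
      simp only [Finset.sum_add_distrib (s := (Finset.univ : Finset V)), Finset.sum_const,
        Finset.card_univ, nsmul_eq_mul]
      ring
    rw [e4]
    linarith
  calc (8796093022208 : ℤ) * Fintype.card V ^ 5 = ∑ _a : V, (8796093022208 : ℤ) * Fintype.card V ^ 4 := by
        simp only [Finset.sum_const, Finset.card_univ, nsmul_eq_mul]; ring
    _ ≤ _ := sum_le_sum fun a _ => e3 a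

theorem hered [Fintype V] (h : ∀ x y, Pr (rel x y) (rel y x))
    (IH : ∀ (W : Type) [Fintype W] (rel' : W → W → ℕ), (∀ x y, Pr (rel' x y) (rel' y x)) →
      Fintype.card W < Fintype.card V → 1000000 * PP rel' ≤ 400015 * Fintype.card W ^ 3)
    (a b : V) (r C : ℕ) (hC : C ≠ r) :
    (0 : ℤ) ≤ ∑ c : V, ∑ d : V, ∑ e : V,
      (if rel a b = r ∧ c2 (rel a c) (rel b c) = C ∧ c2 (rel a d) (rel b d) = C ∧
          c2 (rel a e) (rel b e) = C then
        (400015 : ℤ) - 1000000 * (pc (cd (rel c d) (rel c e) (rel d e)) : ℤ) else 0) := by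
  by_cases hr : rel a b = r
  swap
  · simp [hr]
  have hbb : rel b b = 0 := by
    rcases h b b with h | h | h
    · exact h.1
    · omega
    · omega
  set S : Finset V := univ.filter fun x => c2 (rel a x) (rel b x) = C with hS
  have hbS : b ∉ S := by
    rw [hS, mem_filter]
    rintro ⟨-, hb⟩
    apply hC
    rw [← hb, hbb, hr]
    rfl
  have hcard : Fintype.card S < Fintype.card V := by
    rw [Fintype.card_coe]
    exact Finset.card_lt_univ_of_notMem hbS
  have key := IH S (fun x y => rel x y) (fun x y => h x y) hcard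
  have e1 : ∑ c : V, ∑ d : V, ∑ e : V,
      (if rel a b = r ∧ c2 (rel a c) (rel b c) = C ∧ c2 (rel a d) (rel b d) = C ∧
          c2 (rel a e) (rel b e) = C then
        (400015 : ℤ) - 1000000 * (pc (cd (rel c d) (rel c e) (rel d e)) : ℤ) else 0)
      = ∑ c ∈ S, ∑ d ∈ S, ∑ e ∈ S,
        ((400015 : ℤ) - 1000000 * (pc (cd (rel c d) (rel c e) (rel d e)) : ℤ)) := by
    rw [hS]
    simp only [Finset.sum_filter]
    refine sum_congr rfl fun c _ => ?_
    by_cases h1 : c2 (rel a c) (rel b c) = C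
    swap
    · simp [h1]
    rw [if_pos h1]
    refine sum_congr rfl fun d _ => ?_
    by_cases h2 : c2 (rel a d) (rel b d) = C
    swap
    · simp [h2]
    rw [if_pos h2]
    refine sum_congr rfl fun e _ => ?_
    simp only [hr, h1, h2, true_and]
  rw [e1]
  have e2 : ∑ c ∈ S, ∑ d ∈ S, ∑ e ∈ S,
        ((400015 : ℤ) - 1000000 * (pc (cd (rel c d) (rel c e) (rel d e)) : ℤ))
      = (400015 : ℤ) * (S.card : ℤ) ^ 3 - 1000000 * (PP (fun x y : S => rel x y) : ℤ) := by
    rw [PP]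
    push_cast
    simp only [← Finset.sum_coe_sort S]
    simp only [Finset.sum_sub_distrib, Finset.mul_sum, Finset.sum_const, Finset.card_univ,
      nsmul_eq_mul, Fintype.card_coe]
    ring
  rw [e2]
  rw [Fintype.card_coe] at key
  have key2 : ((1000000 * PP (fun x y : S => rel x y) : ℕ) : ℤ) ≤ ((400015 * S.card ^ 3 : ℕ) : ℤ) :=
    Nat.cast_le.mpr key
  push_cast at key2
  linarith

theorem lowerH [Fintype V] (h : ∀ x y, Pr (rel x y) (rel y x))
    (IH : ∀ (W : Type) [Fintype W] (rel' : W → W → ℕ), (∀ x y, Pr (rel' x y) (rel' y x)) →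
      Fintype.card W < Fintype.card V → 1000000 * PP rel' ≤ 400015 * Fintype.card W ^ 3) :
    (2199023255552 : ℤ) * Fintype.card V ^ 5
      ≤ ((∑ x : Fin 5 → V, FH rel (x 0) (x 1) (x 2) (x 3) (x 4) : ℕ) : ℤ) := by
  have hl : ∀ x y, rel x y < 3 := fun x y => Pr_lt (h x y)
  have hm : ∀ x y z w, c2 (rel x y) (rel z w) < 9 := fun x y z w => c2_lt (hl _ _) (hl _ _)
  rw [conv]
  push_cast
  have e2 : ∀ a b c d e : V, (FH rel a b c d e : ℤ) = 2199023255552
      + (1221489 * (if rel a b = 1 ∧ c2 (rel a c) (rel b c) = 2 ∧ c2 (rel a d) (rel b d) = 2 ∧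
          c2 (rel a e) (rel b e) = 2 then
        (400015 : ℤ) - 1000000 * (pc (cd (rel c d) (rel c e) (rel d e)) : ℤ) else 0)
      + 1221489 * (if rel a b = 1 ∧ c2 (rel a c) (rel b c) = 3 ∧ c2 (rel a d) (rel b d) = 3 ∧
          c2 (rel a e) (rel b e) = 3 then
        (400015 : ℤ) - 1000000 * (pc (cd (rel c d) (rel c e) (rel d e)) : ℤ) else 0)
      + 238048 * (if rel a b = 1 ∧ c2 (rel a c) (rel b c) = 5 ∧ c2 (rel a d) (rel b d) = 5 ∧
          c2 (rel a e) (rel b e) = 5 then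
        (400015 : ℤ) - 1000000 * (pc (cd (rel c d) (rel c e) (rel d e)) : ℤ) else 0)
      + 537759 * (if rel a b = 0 ∧ c2 (rel a c) (rel b c) = 7 ∧ c2 (rel a d) (rel b d) = 7 ∧
          c2 (rel a e) (rel b e) = 7 then
        (400015 : ℤ) - 1000000 * (pc (cd (rel c d) (rel c e) (rel d e)) : ℤ) else 0)) := by
    intro a b c d e
    rw [FH, hv_eq _ _ (sM_le _ _ _ _ (hl _ _) (hm _ _ _ _) (hm _ _ _ _) (hm _ _ _ _)),
      sM_eq _ _ _ _ (hl _ _) (hm _ _ _ _) (hm _ _ _ _) (hm _ _ _ _)]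
    push_cast
    simp only [mul_ite, mul_zero, add_mul, ite_mul, zero_mul]
  have e3 : ∀ a b : V, (2199023255552 : ℤ) * Fintype.card V ^ 3 ≤
      ∑ c : V, ∑ d : V, ∑ e : V, (FH rel a b c d e : ℤ) := by
    intro a b
    have h0 := hered rel h IH a b 1 2 (by norm_num)
    have h1 := hered rel h IH a b 1 3 (by norm_num)
    have h2 := hered rel h IH a b 1 5 (by norm_num)
    have h3 := hered rel h IH a b 0 7 (by norm_num)
    simp only [e2, Finset.sum_add_distrib (s := (Finset.univ : Finset V)), ← Finset.mul_sum,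
      Finset.sum_const, Finset.card_univ, nsmul_eq_mul]
    have : (Fintype.card V : ℤ) * (Fintype.card V * (Fintype.card V * 2199023255552)) =
      (2199023255552 : ℤ) * Fintype.card V ^ 3 := by ring
    rw [this]
    linarith
  calc (2199023255552 : ℤ) * Fintype.card V ^ 5 =
        ∑ _a : V, ∑ _b : V, (2199023255552 : ℤ) * Fintype.card V ^ 3 := by
        simp only [Finset.sum_const, Finset.card_univ, nsmul_eq_mul]; ring
    _ ≤ _ := sum_le_sum fun a _ => sum_le_sum fun b _ => e3 a b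

theorem main_aux : ∀ (n : ℕ) (V : Type) [Fintype V] (rel : V → V → ℕ),
    (∀ x y, Pr (rel x y) (rel y x)) → Fintype.card V = n →
    1000000 * PP rel ≤ 400015 * Fintype.card V ^ 3 := by
  intro n
  induction n using Nat.strong_induction_on with
  | _ n ih =>
    intro V _ rel h hn
    have IH : ∀ (W : Type) [Fintype W] (rel' : W → W → ℕ), (∀ x y, Pr (rel' x y) (rel' y x)) →
      Fintype.card W < Fintype.card V → 1000000 * PP rel' ≤ 400015 * Fintype.card W ^ 3 :=
      fun W _ rel' h' hW => ih _ (hn ▸ hW) W rel' h' rfl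
    have t := total rel h
    have a3 := lower3 rel h
    have a1 := lower1 rel h
    have aH := lowerH rel h IH
    rcases Nat.eq_zero_or_pos (Fintype.card V) with h0 | hpos
    · haveI : IsEmpty V := Fintype.card_eq_zero_iff.mp h0
      simp [PP]
    have t' : (10 : ℤ) * ((∑ x : Fin 5 → V, F3 rel (x 0) (x 1) (x 2) (x 3) (x 4) : ℕ) : ℤ)
      + 60 * ((∑ x : Fin 5 → V, F1 rel (x 0) (x 1) (x 2) (x 3) (x 4) : ℕ) : ℤ)
      + 20 * ((∑ x : Fin 5 → V, FH rel (x 0) (x 1) (x 2) (x 3) (x 4) : ℕ) : ℤ)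
      ≤ 661356305954793 * (Fintype.card V : ℤ) ^ 5 := by exact_mod_cast t
    have hN : (0 : ℤ) < (Fintype.card V : ℤ) ^ 2 := by positivity
    have key : (Fintype.card V : ℤ) ^ 2 * (1000000 * (PP rel : ℤ)) ≤
        (Fintype.card V : ℤ) ^ 2 * (400015 * (Fintype.card V : ℤ) ^ 3) := by
      have h5 : (0 : ℤ) ≤ (Fintype.card V : ℤ) ^ 5 := by positivity
      have e : (Fintype.card V : ℤ) ^ 2 * (400015 * (Fintype.card V : ℤ) ^ 3)
        = 400015 * (Fintype.card V : ℤ) ^ 5 := by ring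
      rw [e]
      nlinarith
    have := le_of_mul_le_mul_left key hN
    exact_mod_cast this

end Pool.Agent.Helper533.Thm
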